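import Pool.Agent.Helper38_LDP.Stmts

set_option autoImplicit false

namespace Pool.Agent.LDP.H54

open Polynomial
open scoped Polynomial.Bivariate

section
variable {ρ : ℕ} {L : Type*} [CommRing L]

theorem V_mul {a b a' b' : ℕ} {g h : L[X][Y]} (hg : g ∈ V ρ L a b) (hh : h ∈ V ρ L a' b') :
    g * h ∈ V ρ L (a + a') (b + b') := by
  intro i j hij
  rw [coeff_mul, finsetSum_coeff] at hij
  obtain ⟨⟨j₁, j₂⟩, hj, hij⟩ := Finset.exists_ne_zero_of_sum_ne_zero hij
  rw [coeff_mul] at hij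
  obtain ⟨⟨i₁, i₂⟩, hi, hij⟩ := Finset.exists_ne_zero_of_sum_ne_zero hij
  rw [Finset.HasAntidiagonal.mem_antidiagonal] at hi hj
  simp only at hi hj hij
  have h1 := hg i₁ j₁ (fun h => hij (by rw [h, zero_mul]))
  have h2 := hh i₂ j₂ (fun h => hij (by rw [h, mul_zero]))
  subst hi hj
  constructor
  · omega
  · rw [mul_add]; omega

theorem V_one : (1 : L[X][Y]) ∈ V ρ L 0 0 := by
  intro i j hij
  rw [coeff_one] at hij
  split_ifs at hij with h
  · rw [coeff_one] at hij
    split_ifs at hij with h'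
    · subst h h'; simp
    · exact absurd rfl hij
  · exact absurd (coeff_zero _) hij

theorem V_pow {a b : ℕ} {g : L[X][Y]} (hg : g ∈ V ρ L a b) (n : ℕ) :
    g ^ n ∈ V ρ L (a * n) (b * n) := by
  induction n with
  | zero => simpa using V_one
  | succ n ih => rw [pow_succ, mul_add, mul_add, mul_one, mul_one]; exact V_mul ih hg

theorem V_prod {ι : Type*} (s : Finset ι) (g : ι → L[X][Y]) (a b : ι → ℕ)
    (h : ∀ i ∈ s, g i ∈ V ρ L (a i) (b i)) :
    ∏ i ∈ s, g i ∈ V ρ L (∑ i ∈ s, a i) (∑ i ∈ s, b i) := by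
  classical
  induction s using Finset.induction_on with
  | empty => simpa using V_one
  | insert x s hx ih =>
    rw [Finset.prod_insert hx, Finset.sum_insert hx, Finset.sum_insert hx]
    exact V_mul (h x (Finset.mem_insert_self _ _)) (ih fun i hi => h i (Finset.mem_insert_of_mem hi))

theorem V_monomial {i j a b : ℕ} (hj : j ≤ b) (hi : i + ρ * j ≤ a) (c : L) :
    C (C c * X ^ i) * Y ^ j ∈ V ρ L a b := by
  intro i' j' hij
  rw [coeff_C_mul, coeff_X_pow] at hij
  split_ifs at hij with h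
  · rw [mul_one, coeff_C_mul, coeff_X_pow] at hij
    split_ifs at hij with h'
    · subst h h'; exact ⟨hj, hi⟩
    · exact absurd (by simp) hij
  · exact absurd (by simp) hij

theorem th_mem (hρ : ρ ≤ 1) (i : ℕ) : th ρ L i ∈ V ρ L (1 + ρ) 1 := by
  have h0 := V_monomial (ρ := ρ) (L := L) (i := 1) (j := 1) (a := 1 + ρ) (b := 1) le_rfl
    (by omega) 1
  have h1 := V_monomial (ρ := ρ) (L := L) (i := 1) (j := 0) (a := 1 + ρ) (b := 1) (by omega)
    (by omega) 1
  have h2 := V_monomial (ρ := ρ) (L := L) (i := 0) (j := 1) (a := 1 + ρ) (b := 1) le_rfl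
    (by omega) 1
  have h3 := V_monomial (ρ := ρ) (L := L) (i := 0) (j := 0) (a := 1 + ρ) (b := 1) (by omega)
    (by omega) 1
  unfold th
  split_ifs with c0 c1 c2 c3 c4
  · simpa using h0
  · simpa using h1
  · simpa using h2
  · simpa using h3
  · have h4 := V_monomial (ρ := ρ) (L := L) (i := 2) (j := 0) (a := 1 + ρ) (b := 1) (by omega)
      (by omega) 1
    simpa using h4
  · exact Submodule.zero_mem _

end

theorem re1 : Re1Stmt := by
  intro ρ n t L _ h hρ hh
  rw [MvPolynomial.mem_homogeneousSubmodule] at hh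
  rw [← MvPolynomial.support_sum_monomial_coeff h, map_sum]
  refine Submodule.sum_mem _ fun m hm => ?_
  have hdeg : m.degree = t := by
    rw [Finsupp.degree_eq_weight_one]; exact hh (MvPolynomial.mem_support_iff.mp hm)
  unfold res
  rw [MvPolynomial.aeval_monomial, ← Algebra.smul_def]
  refine Submodule.smul_mem _ _ ?_
  have := V_prod (ρ := ρ) m.support (fun i => th ρ L i.1 ^ m i) (fun i => (1 + ρ) * m i)
    (fun i => 1 * m i) (fun i _ => V_pow (th_mem hρ i.1) (m i))
  rw [← Finset.mul_sum, ← Finset.mul_sum, one_mul] at this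
  rw [Finsupp.degree_apply] at hdeg
  rwa [hdeg] at this

theorem re2 : Re2Stmt := by
  classical
  intro ρ n t L _ g hρ hn hg
  -- monomials
  have key : ∀ i j : ℕ, j ≤ t → i + ρ * j ≤ (1 + ρ) * t →
      ∃ h ∈ MvPolynomial.homogeneousSubmodule (Fin (n + 2)) L t,
        res ρ n L h = C (X ^ i) * Y ^ j := by
    intro i j hj hi
    have hX : ∀ l : Fin (n + 2), res ρ n L (MvPolynomial.X l) = th ρ L l.1 := by
      intro l; unfold res; rw [MvPolynomial.aeval_X]
    have t0 : th ρ L 0 = C X * Y := by simp [th]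
    have t1 : th ρ L 1 = C X := by simp [th]
    have t2 : th ρ L 2 = Y := by simp [th]
    have t3 : th ρ L 3 = 1 := by simp [th]
    have hom : ∀ (l : Fin (n + 2)) (e : ℕ),
        (MvPolynomial.X (R := L) l ^ e).IsHomogeneous e := fun l e =>
      MvPolynomial.isHomogeneous_X_pow l e
    have hC : ∀ e : ℕ, (C X : L[X][Y]) ^ e = C (X ^ e) := fun e => (map_pow C X e).symm
    by_cases hit : i ≤ t
    · obtain ⟨e0, e1, e2, e3, h1, h2, h3⟩ : ∃ e0 e1 e2 e3 : ℕ, e0 + e1 = i ∧ e0 + e2 = j ∧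
          e0 + e1 + e2 + e3 = t :=
        ⟨min i j, i - min i j, j - min i j, t - max i j, by omega, by omega, by omega⟩
      refine ⟨MvPolynomial.X ⟨0, by omega⟩ ^ e0 * MvPolynomial.X ⟨1, by omega⟩ ^ e1
        * MvPolynomial.X ⟨2, by omega⟩ ^ e2 * MvPolynomial.X ⟨3, by omega⟩ ^ e3, ?_, ?_⟩
      · rw [MvPolynomial.mem_homogeneousSubmodule, ← h3]
        exact (((hom _ _).mul (hom _ _)).mul (hom _ _)).mul (hom _ _)
      · simp only [map_mul, map_pow, hX, t0, t1, t2, t3, one_pow, mul_one]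
        rw [← h1, ← h2]
        ring
    · obtain rfl : ρ = 1 := by
        rcases Nat.le_one_iff_eq_zero_or_eq_one.mp hρ with rfl | rfl
        · omega
        · rfl
      have t4 : th 1 L 4 = C (X ^ 2) := by simp [th]
      obtain ⟨e0, e1, e3, e4, h1, h2, h3⟩ : ∃ e0 e1 e3 e4 : ℕ, e0 + e1 + 2 * e4 = i ∧ e0 = j ∧
          e0 + e1 + e3 + e4 = t :=
        ⟨j, (i - j) % 2, t - (j + (i - j) % 2 + (i - j) / 2), (i - j) / 2, by omega, by omega,
          by omega⟩
      refine ⟨MvPolynomial.X ⟨0, by omega⟩ ^ e0 * MvPolynomial.X ⟨1, by omega⟩ ^ e1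
        * MvPolynomial.X ⟨3, by omega⟩ ^ e3 * MvPolynomial.X ⟨4, by omega⟩ ^ e4, ?_, ?_⟩
      · rw [MvPolynomial.mem_homogeneousSubmodule, ← h3]
        exact (((hom _ _).mul (hom _ _)).mul (hom _ _)).mul (hom _ _)
      · simp only [map_mul, map_pow, hX, t0, t1, t3, t4, one_pow, mul_one]
        rw [← h1, ← h2]
        ring
  have key2 : ∀ i j : ℕ, ∃ h ∈ MvPolynomial.homogeneousSubmodule (Fin (n + 2)) L t,
        res ρ n L h = C (C ((g.coeff j).coeff i) * X ^ i) * Y ^ j := by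
    intro i j
    by_cases hc : (g.coeff j).coeff i = 0
    · refine ⟨0, Submodule.zero_mem _, ?_⟩
      rw [hc]; simp
    · obtain ⟨hj, hi⟩ := hg i j hc
      obtain ⟨h, hh, e⟩ := key i j hj hi
      refine ⟨(g.coeff j).coeff i • h, Submodule.smul_mem _ _ hh, ?_⟩
      rw [map_smul, e, Algebra.smul_def, map_mul, mul_assoc]
      rfl
  choose H hH hres using key2
  refine ⟨∑ j ∈ g.support, ∑ i ∈ (g.coeff j).support, H i j,
    Submodule.sum_mem _ fun j _ => Submodule.sum_mem _ fun i _ => hH i j, ?_⟩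
  simp only [map_sum, hres]
  conv_rhs => rw [g.as_sum_support_C_mul_X_pow]
  refine Finset.sum_congr rfl fun j _ => ?_
  rw [← Finset.sum_mul, ← map_sum, ← (g.coeff j).as_sum_support_C_mul_X_pow]

end Pool.Agent.LDP.H54
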